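import Pool.Agent.Helper86.LCPExample

/-!
# Q2: the closure of `P` need not act freely on the non-flat factor of an LCP manifold

The example is four-dimensional: `ℝ × N` with `N = {(y, t, u) : t > 0}`,
`g_N = dt² + t⁴ dy² + t² du²`, and the group generated by the contraction
`(x, y, t, u) ↦ (λ x, λ⁻¹ y, λ t, u)`, `λ = 3 - 2√2`, the maps
`(x, y, t, u) ↦ (x + a + b√2, y + a - b√2, t, (-1)^a u)` for integers `a, b`, and
`(x, y, t, u) ↦ (x, y, t, u + 1)`.
-/

namespace Pool.Agent.Results.MP_d802ba_gt.ClosureNotFree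

open Pool.Agent.Helper86.LCP

/-- There are an LCP manifold and a similarity `p ≠ id` of its non-flat factor `N`, lying in the
closure of `P` in the compact-open topology, that fixes a point of `N`. -/
theorem result : ∃ (M : LCPManifold 1 3) (p : M.U → M.U),
    (∃ r : ℝ, 0 < r ∧ IsSimilarity M.U M.g p r) ∧ InClosure M.actN p ∧
    (∃ x, p x ≠ x) ∧ ∃ x, p x = x :=
  ⟨example4, refl3, ⟨1, one_pos, isSimilarity_hN 1 one_pos 0 (-1) (by norm_num) 0⟩,
    refl3_mem_closure, refl3_moves, refl3_fixed⟩

end Pool.Agent.Results.MP_d802ba_gt.ClosureNotFree
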