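import Pool.Agent.Helper92.FA.Main

/-!
# MP_d802ba_gt, Q1: the group `P` acts freely on the non-flat factor

Positive answer. A group `Γ` acting by similarities on a Euclidean space `F` and on a connected
Riemannian manifold `N` (with the same ratios, freely and properly discontinuously on `F × N`, not
all ratios being `1`) has no element different from `1` with a fixed point in `N`.
For an LCP manifold take `F = ℝ^q` and `Γ = π₁(M)`.
-/

open Bundle Manifold
open scoped ContDiff

namespace Pool.Agent.Results.MP_d802ba_gt.FreeAction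

/-- The universal-cover picture of a (generalised) locally conformally product manifold. The group
`Γ` acts on a Euclidean space `F` and on a Riemannian manifold `N` (smooth, modelled on the finite
dimensional space `E`, not necessarily complete); every `γ` acts on both factors by a similarity of
ratio `ratio γ`, the action on `F × N` is free and properly discontinuous, and not all ratios are
`1`. -/
structure SimilarityAction (F E N Γ : Type) [NormedAddCommGroup F] [InnerProductSpace ℝ F]
    [NormedAddCommGroup E] [NormedSpace ℝ E] [TopologicalSpace N] [ChartedSpace E N]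
    [IsManifold 𝓘(ℝ, E) ∞ N] [RiemannianBundle (fun x : N => TangentSpace 𝓘(ℝ, E) x)]
    [Group Γ] [MulAction Γ F] [MulAction Γ N] where
  /-- the ratio of an element -/
  ratio : Γ → ℝ
  ratio_pos : ∀ γ, 0 < ratio γ
  /-- `γ` acts on the Euclidean space by a similarity of ratio `ratio γ` -/
  similarity_flat : ∀ (γ : Γ) (a b : F), dist (γ • a) (γ • b) = ratio γ * dist a b
  /-- `γ` acts on `N` by a smooth map -/
  smooth : ∀ γ : Γ, ContMDiff 𝓘(ℝ, E) 𝓘(ℝ, E) ∞ (fun x : N => γ • x)
  /-- whose derivative multiplies the length of all tangent vectors by `ratio γ` -/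
  similarity : ∀ (γ : Γ) (x : N) (v : TangentSpace 𝓘(ℝ, E) x),
    ‖mfderiv 𝓘(ℝ, E) 𝓘(ℝ, E) (fun y : N => γ • y) x v‖ = ratio γ * ‖v‖
  /-- the action on `F × N` is free -/
  free : ∀ (γ : Γ) (a : F) (x : N), γ • a = a → γ • x = x → γ = 1
  /-- and properly discontinuous -/
  properlyDiscontinuous : ∀ K : Set (F × N), IsCompact K →
    {γ : Γ | ∃ p ∈ K, (γ • p.1, γ • p.2) ∈ K}.Finite
  /-- not all ratios are `1` -/
  nonexact : ∃ γ, ratio γ ≠ 1

theorem result {F E N Γ : Type}
    -- `F` is a Euclidean space
    [NormedAddCommGroup F] [InnerProductSpace ℝ F] [FiniteDimensional ℝ F]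
    -- `N` is a connected smooth manifold with a smooth Riemannian metric
    [NormedAddCommGroup E] [NormedSpace ℝ E] [FiniteDimensional ℝ E]
    [TopologicalSpace N] [T2Space N] [ConnectedSpace N] [ChartedSpace E N]
    [IsManifold 𝓘(ℝ, E) ∞ N] [RiemannianBundle (fun x : N => TangentSpace 𝓘(ℝ, E) x)]
    [IsContMDiffRiemannianBundle 𝓘(ℝ, E) ∞ E (fun x : N => TangentSpace 𝓘(ℝ, E) x)]
    -- the group `Γ` acts on `F` and on `N`
    [Group Γ] [MulAction Γ F] [MulAction Γ N] (h : SimilarityAction F E N Γ) :
    -- only the identity has a fixed point in `N`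
    ∀ (γ : Γ) (x : N), γ • x = x → γ = 1 :=
  fun γ x hx => Pool.Agent.Helper92.FA.main h.ratio h.ratio_pos h.similarity_flat h.smooth
    h.similarity h.free h.properlyDiscontinuous h.nonexact γ x hx

end Pool.Agent.Results.MP_d802ba_gt.FreeAction
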